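import Pool.Agent.W71.NN.Comp
import Pool.Agent.TH885.NW.Exp2
import Pool.Agent.TH885.NW.Prop

/-! Ten or more groups of points with exactly the conditions of points of multiplicity `m`, `m + 1`. -/

set_option autoImplicit false

namespace Pool.Agent.W5h90.TG

open Finset Pool.Agent.TH176.Nag Pool.Agent.TH603.Sur Pool.Agent.TH641.UM Pool.Agent.TH2.NU
open Pool.Agent.TH545.SD Pool.Agent.W71.NN Pool.Agent.TH885.NW

/-- The degree `d` is in the window of the sum `N` of the multiplicities at `r` points. -/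
def Win (r N d : ℕ) : Prop :=
  -loW r ≤ 2 * (d : ℝ) + 3 - (√(r : ℝ) + 2 * (N : ℝ) / √(r : ℝ)) ∧
    2 * (d : ℝ) + 3 - (√(r : ℝ) + 2 * (N : ℝ) / √(r : ℝ)) ≤ upW r

theorem good_pt (b : ℕ) : Good ({b} : Multiset ℕ) := good_of_all fun d => ⟨GD.point d b⟩

theorem ns_near {r m d : ℕ} (hr : 10 ≤ r) (hm : 1 ≤ m) {μ : Fin r → ℕ}
    (hμ : ∀ j, μ j = m ∨ μ j = m + 1) (hd : ¬ Win r (∑ j, μ j) d) : Ns d (ms μ) := by
  refine ⟨GD_of_open (K := ℂ) ?_⟩
  obtain ⟨F, hF, hF'⟩ := exp_near2 (L := ℂ) hr hm hμ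
  refine ⟨F.map (algebraMap ℚ ℂ), Pool.Agent.H932R3.map_ne_zero_of hF, fun P hP => ?_⟩
  rw [MvPolynomial.eval_map] at hP
  refine hF' P hP d ?_
  unfold Win at hd
  push_cast at hd
  by_contra hcon
  push Not at hcon
  exact hd ⟨hcon.2, hcon.1⟩

/-- **Groups of points.** -/
theorem ns_groups {r m d : ℕ} (hr : 10 ≤ r) (hm : 1 ≤ m) {μ ν : Fin r → ℕ}
    (hμ : ∀ j, m ≤ μ j ∧ μ j ≤ ν j ∧ ν j ≤ m + 1) (C : Fin r → Multiset ℕ)
    (h0 : ∀ j, Ns (μ j - 1) (C j)) (h1 : ∀ j, Ns (ν j - 1) (C j))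
    (lo : ∀ j, (μ j + 1).choose 2 ≤ co (C j)) (hi : ∀ j, co (C j) ≤ (ν j + 1).choose 2) (p : ℕ)
    (hd : ∀ N, ∑ j, μ j ≤ N → N ≤ ∑ j, ν j → ¬ Win r N d) : Ns d (∑ j, C j + p • {1}) := by
  refine Ns_compose C μ (fun j => by have := hμ j; omega) h0 (fun j => ?_) lo (fun j => ?_) _
    (fun x hx => ?_)
  · rcases (hμ j).2.1.eq_or_lt with h | h
    · have hc : co (C j) = (μ j + 1).choose 2 := le_antisymm (by rw [h]; exact hi j) (lo j)
      refine ⟨GD.above (d := μ j) (d' := μ j - 1) (by omega) ?_ (h0 j).out⟩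
      have h2 : μ j - 1 + 2 = μ j + 1 := by
        have := hμ j
        omega
      rw [h2, hc]
    · have h2 : ν j - 1 = μ j := by
        have := hμ j
        omega
      rw [← h2]
      exact h1 j
  · refine (hi j).trans (Nat.choose_le_choose 2 ?_)
    have := hμ j
    omega
  · have hx' : ∀ j, μ j ≤ x j ∧ x j ≤ ν j := by
      intro j
      have h3 := hμ j
      rcases hx j with h2 | ⟨h2, h4⟩
      · omega
      · have h5 : μ j < ν j := by
          by_contra hcon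
          have h6 : μ j = ν j := by omega
          have h7 := hi j
          rw [← h6] at h7
          omega
        omega
    refine (ns_near (m := m) hr hm (fun j => ?_) (hd _ (Finset.sum_le_sum fun j _ => (hx' j).1)
      (Finset.sum_le_sum fun j _ => (hx' j).2))).simple p
    have h3 := hμ j
    have h4 := hx' j
    omega

/-- The degrees which are not treated are in a short interval. -/
theorem win_interval {r : ℕ} (hr : 10 ≤ r) (A B : ℕ) :
    ∃ d0 : ℕ, ∀ d : ℕ, d < d0 ∨ (d0 : ℝ) + ((B : ℝ) - A) / √(r : ℝ) + 1 ≤ d →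
      ∀ N, A ≤ N → N ≤ B → ¬ Win r N d := by
  classical
  by_cases hex : ∃ d, ∃ N, A ≤ N ∧ N ≤ B ∧ Win r N d
  · refine ⟨Nat.find hex, fun d hd N h1 h2 hw => ?_⟩
    rcases hd with hd | hd
    · exact Nat.find_min hex hd ⟨N, h1, h2, hw⟩
    · obtain ⟨N', h3, h4, hw'⟩ := Nat.find_spec hex
      obtain ⟨-, -, h5⟩ := win_len hr
      have hs : 0 < √(r : ℝ) := Real.sqrt_pos.2 (by exact_mod_cast (by omega : 0 < r))
      have e1 := hw.2
      have e2 := hw'.1
      have e3 : 2 * (N : ℝ) / √(r : ℝ) - 2 * (N' : ℝ) / √(r : ℝ) ≤ 2 * (((B : ℝ) - A) / √(r : ℝ)) := by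
        rw [← sub_div, ← mul_div_assoc]
        apply div_le_div_of_nonneg_right _ hs.le
        have f1 : (N : ℝ) ≤ B := by exact_mod_cast h2
        have f2 : (A : ℝ) ≤ N' := by exact_mod_cast h3
        linarith
      linarith
  · push Not at hex
    exact ⟨0, fun d _ N h1 h2 => hex d N h1 h2⟩

theorem exists_d0 {r : ℕ} (hr : 10 ≤ r) (N : ℕ) : ∃ d0 : ℕ, ∀ d, d ≠ d0 → ¬ Win r N d := by
  obtain ⟨d0, h⟩ := exists_deg hr (√(r : ℝ) + 2 * (N : ℝ) / √(r : ℝ))
  refine ⟨d0, fun d hd hw => ?_⟩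
  rcases h d hd with h1 | h1
  · exact absurd hw.2 (not_le.2 h1)
  · exact absurd hw.1 (not_le.2 h1)

/-- The proportion of the sums with a degree in the window. -/
theorem count_win {r : ℕ} (hr : 10 ≤ r) (hsq : ¬ IsSquare r) {ε : ℝ} (hε : 0 < ε) :
    ∃ M0 : ℕ, ∀ M : ℕ, M0 ≤ M →
      (Set.ncard {N : ℕ | N < M ∧ ∃ d, Win r N d} : ℝ) ≤ ((loW r + upW r) / 2 + ε) * M := by
  classical
  obtain ⟨h1, h2, -⟩ := win_len hr
  have hirr : Irrational ((√(r : ℝ))⁻¹) :=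
    irrational_inv_iff.2 (irrational_sqrt_natCast_iff.2 hsq)
  obtain ⟨M0, h⟩ := count_sharp hirr ((√(r : ℝ) - 3) / 2) (loW r / 2) (upW r / 2)
    (by linarith) hε
  have hs : 0 < √(r : ℝ) := Real.sqrt_pos.2 (by exact_mod_cast (by omega : 0 < r))
  refine ⟨⌈M0⌉₊, fun M hM => ?_⟩
  have hfin : {N : ℕ | N < M ∧ ∃ d, Win r N d}.Finite :=
    (Set.finite_lt_nat M).subset fun N hN => hN.1
  rw [Set.ncard_eq_toFinset_card _ hfin]
  have h3 := h M ((Nat.le_ceil M0).trans (by exact_mod_cast hM)) hfin.toFinset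
    (fun N hN => ((hfin.mem_toFinset).1 hN).1) (fun N hN => by
      obtain ⟨-, d, hd1, hd2⟩ := (hfin.mem_toFinset).1 hN
      have e1 : 2 * (N : ℝ) / √(r : ℝ) = 2 * ((√(r : ℝ))⁻¹ * N) := by
        rw [div_eq_mul_inv]
        ring
      rw [e1] at hd1 hd2
      refine ⟨(d : ℤ), ?_, ?_⟩
      · push_cast
        linarith
      · push_cast
        linarith)
  have e2 : loW r / 2 + upW r / 2 = (loW r + upW r) / 2 := by ring
  rw [e2] at h3
  exact h3

/-- Squares of odd numbers. -/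
theorem win_square {s N d : ℕ} (hs : 5 ≤ s) (hodd : s % 2 = 1) (hN : N % s = (s + 1) / 2) :
    ¬ Win (s ^ 2) N d := by
  rintro ⟨h1, h2⟩
  have hsR : (5 : ℝ) ≤ s := by exact_mod_cast hs
  have hs0 : (0 : ℝ) < s := by linarith
  have e1 : √((s ^ 2 : ℕ) : ℝ) = s := by
    push_cast
    exact Real.sqrt_sq hs0.le
  have hlo : loW (s ^ 2) ≤ 2 / 3 + 9 / (4 * s) := by
    unfold loW
    rw [e1]
    exact min_le_right _ _
  have hup : upW (s ^ 2) ≤ 2 / 3 + 1 / (4 * s) := by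
    unfold upW
    rw [e1]
    exact min_le_right _ _
  rw [e1] at h1 h2
  -- the integer `X`
  obtain ⟨t, ht⟩ : ∃ t, s = 2 * t + 1 := ⟨s / 2, by omega⟩
  obtain ⟨q, hq⟩ : ∃ q, N = s * q + (t + 1) := ⟨N / s, by
    have h3 := Nat.div_add_mod N s
    rw [hN] at h3
    have h4 : (s + 1) / 2 = t + 1 := by omega
    rw [h4] at h3
    exact h3.symm⟩
  have hX : (s : ℝ) * (2 * (d : ℝ) + 3 - (s + 2 * (N : ℝ) / s)) =
      ((2 * (s : ℤ) * ((d : ℤ) + 1 - t - q) - (s + 1) : ℤ) : ℝ) := by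
    have e2 : (s : ℝ) = 2 * t + 1 := by exact_mod_cast ht
    have e3 : (N : ℝ) = s * q + (t + 1) := by exact_mod_cast hq
    have e4 : (s : ℝ) * (2 * (N : ℝ) / s) = 2 * N := by field_simp
    push_cast
    have e5 : (s : ℝ) * (2 * (d : ℝ) + 3 - (s + 2 * (N : ℝ) / s))
        = s * (2 * d + 3 - s) - s * (2 * (N : ℝ) / s) := by ring
    rw [e5, e4, e3]
    have e6 : (t : ℝ) = (s - 1) / 2 := by linarith
    rw [e6]
    ring
  have k1 := mul_le_mul_of_nonneg_left h1 hs0.le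
  have k2 := mul_le_mul_of_nonneg_left h2 hs0.le
  rw [hX] at k1 k2
  have f1 : (s : ℝ) * loW (s ^ 2) ≤ 2 * s / 3 + 9 / 4 := by
    refine (mul_le_mul_of_nonneg_left hlo hs0.le).trans (le_of_eq ?_)
    field_simp
  have f2 : (s : ℝ) * upW (s ^ 2) ≤ 2 * s / 3 + 1 / 4 := by
    refine (mul_le_mul_of_nonneg_left hup hs0.le).trans (le_of_eq ?_)
    field_simp
  have g1 : -((s : ℝ) + 1) < ((2 * (s : ℤ) * ((d : ℤ) + 1 - t - q) - (s + 1) : ℤ) : ℝ) := by
    have : (s : ℝ) * -loW (s ^ 2) = -(s * loW (s ^ 2)) := by ring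
    rw [this] at k1
    linarith
  have g2 : ((2 * (s : ℤ) * ((d : ℤ) + 1 - t - q) - (s + 1) : ℤ) : ℝ) < (s : ℝ) - 1 := by
    linarith
  have g1' : -((s : ℤ) + 1) < 2 * (s : ℤ) * ((d : ℤ) + 1 - t - q) - (s + 1) := by
    exact_mod_cast g1
  have g2' : 2 * (s : ℤ) * ((d : ℤ) + 1 - t - q) - (s + 1) < (s : ℤ) - 1 := by
    exact_mod_cast g2
  have hsZ : (0 : ℤ) < s := by exact_mod_cast (by omega : 0 < s)
  have g3 : 0 < (d : ℤ) + 1 - t - q := by
    by_contra hcon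
    push Not at hcon
    nlinarith
  have g4 : (d : ℤ) + 1 - t - q < 1 := by
    by_contra hcon
    push Not at hcon
    nlinarith
  omega

/-- The length of the window. -/
theorem len_lt {r : ℕ} (hr : 10 ≤ r) (hsq : ¬ IsSquare r) : (loW r + upW r) / 2 < 97 / 100 := by
  have hrR : (10 : ℝ) ≤ r := by exact_mod_cast hr
  have hs0 : 0 < √(r : ℝ) := Real.sqrt_pos.2 (by linarith)
  rcases le_or_gt r 16 with h | h
  · have h1 : r ≤ 15 := by
      rcases h.eq_or_lt with rfl | h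
      · exact absurd ⟨4, by norm_num⟩ hsq
      · omega
    have h2 : √(r : ℝ) < 3.9 := by
      rw [Real.sqrt_lt' (by norm_num)]
      have : (r : ℝ) ≤ 15 := by exact_mod_cast h1
      norm_num
      linarith
    have h3 : loW r ≤ √(r : ℝ) - 3 := min_le_left _ _
    have h4 : upW r ≤ √(r : ℝ) - 3 := min_le_left _ _
    linarith
  · have h1 : (4.123 : ℝ) ≤ √(r : ℝ) := by
      apply Real.le_sqrt_of_sq_le
      have : (17 : ℝ) ≤ r := by exact_mod_cast h
      norm_num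
      linarith
    have h3 : loW r ≤ 2 / 3 + 9 / (4 * √(r : ℝ)) := min_le_right _ _
    have h4 : upW r ≤ 2 / 3 + 1 / (4 * √(r : ℝ)) := min_le_right _ _
    have h5 : 9 / (4 * √(r : ℝ)) ≤ 9 / (4 * 4.123) := by
      apply div_le_div_of_nonneg_left (by norm_num) (by norm_num)
      linarith
    have h6 : 1 / (4 * √(r : ℝ)) ≤ 1 / (4 * 4.123) := by
      apply div_le_div_of_nonneg_left (by norm_num) (by norm_num)
      linarith
    have e5 : (9 : ℝ) / (4 * 4.123) < 0.5458 := by norm_num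
    have e6 : (1 : ℝ) / (4 * 4.123) < 0.0607 := by norm_num
    linarith

theorem len_small (r : ℕ) (x : ℝ) (hx : 0 ≤ x) (h : (r : ℝ) < (3 + x) ^ 2) :
    (loW r + upW r) / 2 < x := by
  have h2 : √(r : ℝ) < 3 + x := by
    rw [Real.sqrt_lt' (by linarith)]
    exact h
  have h3 : loW r ≤ √(r : ℝ) - 3 := min_le_left _ _
  have h4 : upW r ≤ √(r : ℝ) - 3 := min_le_left _ _
  linarith

end Pool.Agent.W5h90.TG
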